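import Pool.Agent.W734.TWB.Stms

/-!
# TWB-PAIR: from the fibre inequality to the inequality on the pair region
-/

set_option autoImplicit false

noncomputable section

namespace Pool.Agent.W160.TWB.Pair

open Pool.Agent.W734.TWB MeasureTheory Set Filter Metric

variable {n : ℕ}

def P0 (i j : Fin n) (x : Cfg n) : Cfg n :=
  fun l => if l = i then x i else if l = j then x i else x l

def Lm (i j : Fin n) : E3 →L[ℝ] Cfg n :=
  ContinuousLinearMap.pi fun l =>
    if l = i then (1 / 2 : ℝ) • ContinuousLinearMap.id ℝ E3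
    else if l = j then (-(1 / 2) : ℝ) • ContinuousLinearMap.id ℝ E3 else 0

theorem Lm_i (i j : Fin n) (y : E3) : Lm i j y i = (1 / 2 : ℝ) • y := by
  simp [Lm]

theorem Lm_j (i j : Fin n) (hij : i ≠ j) (y : E3) : Lm i j y j = (-(1 / 2) : ℝ) • y := by
  simp [Lm, hij.symm]

theorem Lm_l (i j l : Fin n) (hi : l ≠ i) (hj : l ≠ j) (y : E3) : Lm i j y l = 0 := by
  simp [Lm, hi, hj]

theorem T2_eq (i j : Fin n) (hij : i ≠ j) (x : Cfg n) (y : E3) :
    T2 i j (Function.update x j y) = P0 i j x + Lm i j y := by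
  funext l
  unfold T2
  rw [Pi.add_apply]
  by_cases hi : l = i
  · subst hi
    rw [Lm_i, Function.update_of_ne hij, Function.update_self, Function.update_of_ne hij,
      Function.update_self]
    simp [P0]
  · by_cases hj : l = j
    · subst hj
      rw [Lm_j _ _ hij, Function.update_self, Function.update_self, Function.update_of_ne hij]
      simp only [P0, if_neg hij.symm, if_true]
      rw [neg_smul, sub_eq_add_neg]
    · rw [Lm_l _ _ _ hi hj, Function.update_of_ne hj, Function.update_of_ne hi,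
        Function.update_of_ne hj, add_zero]
      simp [P0, hi, hj]

theorem P_i (i j : Fin n) (x : Cfg n) (y : E3) :
    (P0 i j x + Lm i j y) i = x i + (1 / 2 : ℝ) • y := by
  rw [Pi.add_apply, Lm_i]
  simp [P0]

theorem P_j (i j : Fin n) (hij : i ≠ j) (x : Cfg n) (y : E3) :
    (P0 i j x + Lm i j y) j = x i - (1 / 2 : ℝ) • y := by
  rw [Pi.add_apply, Lm_j _ _ hij, neg_smul, sub_eq_add_neg]
  simp [P0, hij.symm]

theorem P_l (i j l : Fin n) (hi : l ≠ i) (hj : l ≠ j) (x : Cfg n) (y : E3) :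
    (P0 i j x + Lm i j y) l = x l := by
  rw [Pi.add_apply, Lm_l _ _ _ hi hj, add_zero]
  simp [P0, hi, hj]

theorem P_sub (i j : Fin n) (hij : i ≠ j) (x : Cfg n) (y : E3) :
    (P0 i j x + Lm i j y) i - (P0 i j x + Lm i j y) j = y := by
  rw [P_i, P_j _ _ hij]
  have : (x i + (1 / 2 : ℝ) • y) - (x i - (1 / 2 : ℝ) • y) = ((1 / 2 : ℝ) + 1 / 2) • y := by
    rw [add_smul]
    abel
  rw [this]
  norm_num

theorem P_mid (i j : Fin n) (hij : i ≠ j) (x : Cfg n) (y : E3) :
    (1 / 2 : ℝ) • ((P0 i j x + Lm i j y) i + (P0 i j x + Lm i j y) j) = x i := by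
  rw [P_i, P_j _ _ hij]
  have : (x i + (1 / 2 : ℝ) • y) + (x i - (1 / 2 : ℝ) • y) = (2 : ℝ) • x i := by
    rw [two_smul]
    abel
  rw [this, smul_smul]
  norm_num

theorem mem_iff (τ ρ : ℝ) (i j : Fin n) (hij : i ≠ j) (x : Cfg n) (hx : x j ∈ Q1) (y : E3) :
    P0 i j x + Lm i j y ∈ pairReg τ ρ i j ↔ x ∈ goodP τ i j ∧ y ∈ ball (0 : E3) ρ := by
  unfold pairReg goodP
  rw [mem_ofPred_eq, mem_ofPred_eq, P_mid i j hij, P_sub i j hij, mem_ball_zero_iff]
  constructor
  · rintro ⟨h1, h2, h3⟩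
    refine ⟨⟨h1, hx, fun l hi hj => ?_⟩, h2⟩
    have h4 := h3 l hi hj
    rw [P_l i j l hi hj] at h4
    exact h4
  · rintro ⟨⟨h1, -, h3⟩, h2⟩
    refine ⟨h1, h2, fun l hi hj => ?_⟩
    rw [P_l i j l hi hj]
    exact h3 l hi hj

theorem cont_gsq {F : Cfg n → ℂ} (hF : ContDiff ℝ 1 F) (i : Fin n) : Continuous (gsq F i) := by
  unfold gsq
  refine continuous_finsetSum _ fun k _ => ?_
  exact (((hF.continuous_fderiv one_ne_zero).clm_apply continuous_const).norm).pow 2

theorem cont_g3 {u : E3 → ℂ} (hu : ContDiff ℝ 1 u) : Continuous (g3 u) := by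
  unfold g3
  refine continuous_finsetSum _ fun k _ => ?_
  exact (((hu.continuous_fderiv one_ne_zero).clm_apply continuous_const).norm).pow 2

theorem Lm_ee (i j : Fin n) (hij : i ≠ j) (v : E3) :
    Lm i j v = (1 / 2 : ℝ) • ((Pi.single i v : Cfg n) - Pi.single j v) := by
  funext l
  rw [Pi.smul_apply, Pi.sub_apply]
  by_cases hi : l = i
  · subst hi
    rw [Lm_i, Pi.single_eq_same, Pi.single_eq_of_ne hij, sub_zero]
  · by_cases hj : l = j
    · subst hj
      rw [Lm_j _ _ hij, Pi.single_eq_same, Pi.single_eq_of_ne hij.symm, zero_sub, neg_smul,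
        smul_neg]
    · rw [Lm_l _ _ _ hi hj, Pi.single_eq_of_ne hi, Pi.single_eq_of_ne hj, sub_zero, smul_zero]

theorem g3_le {F : Cfg n → ℂ} (hF : ContDiff ℝ 1 F) (i j : Fin n) (hij : i ≠ j) (x : Cfg n)
    (y : E3) : 2 * g3 (fun y => F (P0 i j x + Lm i j y)) y ≤
      gsq F i (P0 i j x + Lm i j y) + gsq F j (P0 i j x + Lm i j y) := by
  have hd : ∀ v : E3, fderiv ℝ (fun y => F (P0 i j x + Lm i j y)) y v =
      fderiv ℝ F (P0 i j x + Lm i j y) (Lm i j v) := by
    intro v
    have h1 : HasFDerivAt F (fderiv ℝ F (P0 i j x + Lm i j y)) (P0 i j x + Lm i j y) :=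
      (hF.differentiable one_ne_zero _).hasFDerivAt
    have h2 : HasFDerivAt (fun y => P0 i j x + Lm i j y) (Lm i j) y :=
      (Lm i j).hasFDerivAt.const_add _
    have h3 := (h1.comp y h2).fderiv
    have h4 : (F ∘ fun y => P0 i j x + Lm i j y) = fun y => F (P0 i j x + Lm i j y) := rfl
    rw [h4] at h3
    rw [h3]
    rfl
  unfold g3 gsq
  rw [Finset.mul_sum, ← Finset.sum_add_distrib]
  refine Finset.sum_le_sum fun k _ => ?_
  rw [hd, Lm_ee i j hij (EuclideanSpace.single k (1 : ℝ)), map_smul, map_sub]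
  set a := fderiv ℝ F (P0 i j x + Lm i j y) (Pi.single i (EuclideanSpace.single k (1 : ℝ)))
  set b := fderiv ℝ F (P0 i j x + Lm i j y) (Pi.single j (EuclideanSpace.single k (1 : ℝ)))
  have h1 : ‖a - b‖ ≤ ‖a‖ + ‖b‖ := norm_sub_le a b
  have h2 : ‖(1 / 2 : ℝ) • (a - b)‖ = 1 / 2 * ‖a - b‖ := by
    rw [norm_smul]
    norm_num
  rw [h2]
  have h3 := norm_nonneg (a - b)
  have h4 : ‖a - b‖ ^ 2 ≤ (‖a‖ + ‖b‖) ^ 2 := pow_le_pow_left₀ h3 h1 2
  nlinarith [sq_nonneg (‖a‖ - ‖b‖)]

theorem norm_le_two (z : E3) (hz : ∀ a, z a ∈ Set.Ico (0 : ℝ) 1) : ‖z‖ ≤ 2 := by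
  rw [EuclideanSpace.norm_eq]
  refine Real.sqrt_le_iff.2 ⟨by norm_num, ?_⟩
  have h : ∀ a, ‖z a‖ ^ 2 ≤ 1 := by
    intro a
    have h1 := hz a
    rw [Real.norm_of_nonneg h1.1]
    have := h1.2
    have := h1.1
    nlinarith
  calc ∑ a, ‖z a‖ ^ 2 ≤ ∑ _a : Fin 3, (1 : ℝ) := Finset.sum_le_sum fun a _ => h a
    _ ≤ 2 ^ 2 := by
      rw [Finset.sum_const, Finset.card_univ, Fintype.card_fin]
      norm_num

theorem box_sub : box 0 1 n ⊆ closedBall (0 : Cfg n) 2 := by
  intro x hx
  rw [mem_closedBall_zero_iff]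
  refine (pi_norm_le_iff_of_nonneg (by norm_num)).2 fun i => norm_le_two _ fun a => ?_
  have := hx i a
  simpa using this

theorem goodP_sub (τ : ℝ) (hτ : 0 < τ) (i j : Fin n) :
    goodP τ i j ⊆ closedBall (0 : Cfg n) 2 := by
  intro x hx
  obtain ⟨h1, h2, h3⟩ := hx
  rw [mem_closedBall_zero_iff]
  refine (pi_norm_le_iff_of_nonneg (by norm_num)).2 fun l => norm_le_two _ fun a => ?_
  by_cases hi : l = i
  · subst hi
    exact ⟨hτ.le.trans (h1 a).1, by linarith [(h1 a).2]⟩
  · by_cases hj : l = j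
    · subst hj
      exact h2 a
    · exact (h3 l hi hj).1 a

theorem meas_cube (i : Fin n) (s t : ℝ) :
    MeasurableSet {x : Cfg n | ∀ a, x i a ∈ Set.Ico s t} := by
  have : {x : Cfg n | ∀ a, x i a ∈ Set.Ico s t} = ⋂ a, {x : Cfg n | x i a ∈ Set.Ico s t} := by
    ext x
    simp
  rw [this]
  refine MeasurableSet.iInter fun a => ?_
  have hc : Continuous fun x : Cfg n => x i a :=
    (continuous_apply a).comp ((PiLp.continuous_ofLp 2 _).comp (continuous_apply i))
  exact hc.measurable measurableSet_Ico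

theorem meas_goodP (τ : ℝ) (i j : Fin n) : MeasurableSet (goodP (n := n) τ i j) := by
  have : goodP (n := n) τ i j = {x : Cfg n | ∀ a, x i a ∈ Set.Ico τ (1 - τ)} ∩
      ({x : Cfg n | ∀ a, x j a ∈ Set.Ico (0 : ℝ) 1} ∩
      ⋂ l : Fin n, {x : Cfg n | l ≠ i → l ≠ j → (∀ a, x l a ∈ Set.Ico (0 : ℝ) 1) ∧
        2 * τ ≤ ‖x l - x i‖}) := by
    ext x
    simp only [goodP, mem_ofPred_eq, mem_inter_iff, mem_iInter]
  rw [this]
  refine (meas_cube i _ _).inter ((meas_cube j _ _).inter (MeasurableSet.iInter fun l => ?_))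
  by_cases hi : l = i
  · have : {x : Cfg n | l ≠ i → l ≠ j → (∀ a, x l a ∈ Set.Ico (0 : ℝ) 1) ∧
        2 * τ ≤ ‖x l - x i‖} = univ := by
      ext x
      simp [hi]
    rw [this]
    exact MeasurableSet.univ
  · by_cases hj : l = j
    · have : {x : Cfg n | l ≠ i → l ≠ j → (∀ a, x l a ∈ Set.Ico (0 : ℝ) 1) ∧
          2 * τ ≤ ‖x l - x i‖} = univ := by
        ext x
        simp [hj]
      rw [this]
      exact MeasurableSet.univ
    · have : {x : Cfg n | l ≠ i → l ≠ j → (∀ a, x l a ∈ Set.Ico (0 : ℝ) 1) ∧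
          2 * τ ≤ ‖x l - x i‖} = {x : Cfg n | ∀ a, x l a ∈ Set.Ico (0 : ℝ) 1} ∩
            {x : Cfg n | 2 * τ ≤ ‖x l - x i‖} := by
        ext x
        simp [hi, hj]
      rw [this]
      refine (meas_cube l _ _).inter ?_
      have hc : Continuous fun x : Cfg n => ‖x l - x i‖ :=
        ((continuous_apply l).sub (continuous_apply i)).norm
      exact (isClosed_le continuous_const hc).measurableSet

theorem pair : S_INV → S_COV → S_FUB → S_H2 → S_REGS → S_PAIR := by
  intro hINV hCOV hFUB hH2 hREGS w hw hw0 hM A δ ρ hA hδ hρ hfib n τ hτ hρτ i j hij F hF c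
  obtain ⟨M, hM⟩ := hM
  obtain ⟨mP, -, -, hsub, -⟩ := hREGS n τ ρ (τ / 4) hτ hρτ le_rfl
  have hPm := mP i j
  have hPN := hsub i j hij
  have hPb : pairReg τ ρ i j ⊆ closedBall (0 : Cfg n) 2 :=
    fun x hx => box_sub (hPN hx).1
  have hvol : volume (closedBall (0 : Cfg n) 2) < ⊤ := measure_closedBall_lt_top
  have hcF : Continuous F := hF.continuous
  -- integrability on the configuration space
  have hI1 : IntegrableOn (fun x : Cfg n => gsq F i x + gsq F j x + w (x i - x j) * ‖F x‖ ^ 2)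
      (pairReg τ ρ i j) := by
    have h1 : Measurable fun x : Cfg n => gsq F i x + gsq F j x + w (x i - x j) * ‖F x‖ ^ 2 :=
      ((cont_gsq hF i).measurable.add (cont_gsq hF j).measurable).add
        ((hw.comp ((measurable_pi_apply i).sub (measurable_pi_apply j))).mul
          (hcF.norm.pow 2).measurable)
    obtain ⟨B1, hB1⟩ := (isCompact_closedBall (0 : Cfg n) 2).exists_bound_of_continuousOn
      (cont_gsq hF i).continuousOn
    obtain ⟨B2, hB2⟩ := (isCompact_closedBall (0 : Cfg n) 2).exists_bound_of_continuousOn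
      (cont_gsq hF j).continuousOn
    obtain ⟨B3, hB3⟩ := (isCompact_closedBall (0 : Cfg n) 2).exists_bound_of_continuousOn
      (hcF.norm.pow 2).continuousOn
    refine IntegrableOn.mono_set (t := closedBall (0 : Cfg n) 2) ?_ hPb
    refine IntegrableOn.of_bound hvol h1.aestronglyMeasurable (B1 + B2 + M * B3) ?_
    refine (ae_restrict_iff' isClosed_closedBall.measurableSet).2 (ae_of_all _ fun x hx => ?_)
    refine (norm_add_le _ _).trans (add_le_add ((norm_add_le _ _).trans
      (add_le_add (hB1 x hx) (hB2 x hx))) ?_)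
    rw [norm_mul, Real.norm_of_nonneg (hw0 _)]
    exact mul_le_mul (hM _) (hB3 x hx) (norm_nonneg _) ((hw0 0).trans (hM 0))
  have hI2 : IntegrableOn (fun x : Cfg n => ‖F x - c‖ ^ 2 / ‖x i - x j‖ ^ 2)
      (pairReg τ ρ i j) := by
    obtain ⟨C, -, hC⟩ := hH2 n τ hτ
    exact (hC i j hij F hF c).1.mono_set hPN
  set f : Cfg n → ℝ := (pairReg τ ρ i j).indicator fun x =>
    (gsq F i x + gsq F j x + w (x i - x j) * ‖F x‖ ^ 2) +
      δ * (‖F x - c‖ ^ 2 / ‖x i - x j‖ ^ 2) with hf
  have hfi : Integrable f := (hI1.add (hI2.const_mul δ)).integrable_indicator hPm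
  have hRHS : ∫ x, f x = (∫ x in pairReg τ ρ i j, (gsq F i x + gsq F j x +
      w (x i - x j) * ‖F x‖ ^ 2)) + δ * ∫ x in pairReg τ ρ i j,
        ‖F x - c‖ ^ 2 / ‖x i - x j‖ ^ 2 := by
    rw [hf, integral_indicator hPm, integral_add hI1 (hI2.const_mul δ), integral_const_mul]
  obtain ⟨hT, -⟩ := (hCOV n).1 i j hij
  have hg : Integrable (fun x => f (T2 i j x)) := hT.integrable_comp_of_integrable hfi
  have hgi : ∫ x, f (T2 i j x) = ∫ x, f x := by
    have h1 := integral_map (μ := (volume : Measure (Cfg n))) hT.measurable.aemeasurable (f := f)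
      (by rw [hT.map_eq]; exact hfi.aestronglyMeasurable)
    rw [hT.map_eq] at h1
    exact h1.symm
  obtain ⟨-, hio, hfu⟩ := (hFUB n _ hg).1 j
  rw [← hRHS, ← hgi, hfu]
  -- the fibre estimate
  have hcP : ∀ x : Cfg n, Continuous fun y : E3 => P0 i j x + Lm i j y := fun x =>
    continuous_const.add (Lm i j).continuous
  have hfibre : ∀ x ∈ goodP τ i j, A * ‖c‖ ^ 2 ≤
      ∫ y : E3, f (T2 i j (Function.update x j y)) := by
    intro x hx
    have hxj : x j ∈ Q1 := hx.2.1
    have h1 : (fun y : E3 => f (T2 i j (Function.update x j y))) =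
        (ball (0 : E3) ρ).indicator fun y =>
          (gsq F i (P0 i j x + Lm i j y) + gsq F j (P0 i j x + Lm i j y) +
            w y * ‖F (P0 i j x + Lm i j y)‖ ^ 2) +
          δ * (‖F (P0 i j x + Lm i j y) - c‖ ^ 2 / ‖y‖ ^ 2) := by
      funext y
      rw [T2_eq i j hij]
      by_cases hy : y ∈ ball (0 : E3) ρ
      · rw [hf, indicator_of_mem ((mem_iff τ ρ i j hij x hxj y).2 ⟨hx, hy⟩),
          indicator_of_mem hy, P_sub i j hij]
      · rw [hf, indicator_of_notMem (fun h => hy ((mem_iff τ ρ i j hij x hxj y).1 h).2),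
          indicator_of_notMem hy]
    have hu : ContDiff ℝ 1 fun y : E3 => F (P0 i j x + Lm i j y) :=
      hF.comp (contDiff_const.add (Lm i j).contDiff)
    have hbv : volume (ball (0 : E3) ρ) < ⊤ := measure_ball_lt_top
    have hbc : ball (0 : E3) ρ ⊆ closedBall (0 : E3) ρ := ball_subset_closedBall
    have hbc' : closedBall (0 : E3) ρ ⊆ ball (0 : E3) (ρ + 1) :=
      closedBall_subset_ball (by linarith)
    have hbvc : volume (closedBall (0 : E3) ρ) < ⊤ := measure_closedBall_lt_top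
    -- integrability of continuous functions
    have hci : ∀ g : E3 → ℝ, Continuous g → IntegrableOn g (ball (0 : E3) ρ) := fun g hg =>
      (hg.continuousOn.integrableOn_compact (isCompact_closedBall (0 : E3) ρ)).mono_set hbc
    have hwi : ∀ g : E3 → ℝ, Continuous g →
        IntegrableOn (fun y => w y * g y) (ball (0 : E3) ρ) := by
      intro g hg
      obtain ⟨B, hB⟩ := (isCompact_closedBall (0 : E3) ρ).exists_bound_of_continuousOn
        hg.continuousOn
      refine IntegrableOn.mono_set (t := closedBall (0 : E3) ρ) ?_ hbc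
      refine IntegrableOn.of_bound hbvc (hw.mul hg.measurable).aestronglyMeasurable (M * B) ?_
      refine (ae_restrict_iff' isClosed_closedBall.measurableSet).2 (ae_of_all _ fun y hy => ?_)
      rw [norm_mul, Real.norm_of_nonneg (hw0 _)]
      exact mul_le_mul (hM _) (hB y hy) (norm_nonneg _) ((hw0 0).trans (hM 0))
    have hdi : IntegrableOn (fun y : E3 => ‖F (P0 i j x + Lm i j y) - c‖ ^ 2 / ‖y‖ ^ 2)
        (ball (0 : E3) ρ) := by
      have h2 : IntegrableOn (fun y : E3 => (‖y‖ ^ 2)⁻¹) (closedBall (0 : E3) ρ) :=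
        (hINV.1 (ρ + 1)).mono_set hbc'
      have h3 : ContinuousOn (fun y : E3 => ‖F (P0 i j x + Lm i j y) - c‖ ^ 2)
          (closedBall (0 : E3) ρ) :=
        (((hcF.comp (hcP x)).sub continuous_const).norm.pow 2).continuousOn
      exact (IntegrableOn.continuousOn_mul h3 h2 (isCompact_closedBall _ _)).mono_set hbc
    have hk1 : Continuous fun y : E3 => gsq F i (P0 i j x + Lm i j y) +
        gsq F j (P0 i j x + Lm i j y) :=
      ((cont_gsq hF i).comp (hcP x)).add ((cont_gsq hF j).comp (hcP x))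
    have hk2 : Continuous fun y : E3 => ‖F (P0 i j x + Lm i j y)‖ ^ 2 :=
      (hcF.comp (hcP x)).norm.pow 2
    have hk3 : Continuous fun y : E3 => 2 * g3 (fun y => F (P0 i j x + Lm i j y)) y :=
      continuous_const.mul (cont_g3 hu)
    have hA1 : IntegrableOn (fun y : E3 => gsq F i (P0 i j x + Lm i j y) +
        gsq F j (P0 i j x + Lm i j y) + w y * ‖F (P0 i j x + Lm i j y)‖ ^ 2)
        (ball (0 : E3) ρ) := (hci _ hk1).add (hwi _ hk2)
    have hA2 : IntegrableOn (fun y : E3 => 2 * g3 (fun y => F (P0 i j x + Lm i j y)) y +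
        w y * ‖F (P0 i j x + Lm i j y)‖ ^ 2) (ball (0 : E3) ρ) := (hci _ hk3).add (hwi _ hk2)
    rw [h1, integral_indicator measurableSet_ball,
      integral_add hA1 (hdi.const_mul δ), integral_const_mul]
    refine (hfib _ hu c).trans (add_le_add ?_ le_rfl)
    refine setIntegral_mono_on hA2 hA1 measurableSet_ball fun y _ => ?_
    exact add_le_add (g3_le hF i j hij x y) le_rfl
  have hfibre' : ∀ x : Cfg n, x j ∈ Q1 → x ∉ goodP τ i j →
      ∫ y : E3, f (T2 i j (Function.update x j y)) = 0 := by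
    intro x hxj hx
    have h1 : (fun y : E3 => f (T2 i j (Function.update x j y))) = fun _ => 0 := by
      funext y
      rw [T2_eq i j hij, hf,
        indicator_of_notMem (fun h => hx ((mem_iff τ ρ i j hij x hxj y).1 h).1)]
    rw [h1, integral_zero]
  have hQm : MeasurableSet {x : Cfg n | x j ∈ Q1} := meas_cube j 0 1
  have hGm := meas_goodP (n := n) τ i j
  have hGv : volume (goodP (n := n) τ i j) < ⊤ :=
    (measure_mono (goodP_sub τ hτ i j)).trans_lt hvol
  have hconst : Integrable ((goodP (n := n) τ i j).indicator fun _ => A * ‖c‖ ^ 2) :=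
    (integrableOn_const hGv.ne).integrable_indicator hGm
  have hlow : ∫ x in {x : Cfg n | x j ∈ Q1}, (goodP (n := n) τ i j).indicator
      (fun _ => A * ‖c‖ ^ 2) x = A * ‖c‖ ^ 2 * (volume (goodP (n := n) τ i j)).toReal := by
    rw [setIntegral_indicator hGm]
    have h1 : {x : Cfg n | x j ∈ Q1} ∩ goodP (n := n) τ i j = goodP (n := n) τ i j :=
      inter_eq_right.2 fun x hx => hx.2.1
    rw [h1, setIntegral_const, smul_eq_mul, mul_comm]
    rfl
  rw [← hlow]
  refine setIntegral_mono_on hconst.integrableOn hio hQm fun x hx => ?_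
  by_cases hxg : x ∈ goodP τ i j
  · rw [indicator_of_mem hxg]
    exact hfibre x hxg
  · rw [indicator_of_notMem hxg, hfibre' x hx hxg]

end Pool.Agent.W160.TWB.Pair
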